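import Pool.Agent.Run7.h443.HC.Tests

/-!
# Rational points of almost all smooth Fano cyclic covers outside thin sets
-/

set_option autoImplicit false

namespace Pool.Agent.Run7.h443.HC

open Pool.Agent.Y716.Q Pool.Agent.Y716.C Pool.Agent.Y363.C7 Pool.Agent.Y697.C13
  Pool.Agent.Y487.C8 Filter Topology
open Pool.Agent.R465.CV (ElsW SolW Pt ratio_one card_filter_le_self' pt_of_sol els_of_pt)
open Pool.Agent.Run7.h443.CD (WAC diag wa_excC pos_C card_sys_one card_le_sys)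

/-- A property of almost all systems holds for 100% of the smooth everywhere locally soluble
cyclic covers, also when it depends on a parameter which tends slowly to infinity. -/
theorem ratio_prop (ι : Type*) [Fintype ι] (hn3 : 3 ≤ Fintype.card ι) {m k : ℕ} (hm : 2 ≤ m)
    (hk1 : 1 ≤ k) {e : Fin 1 → ℕ} (he : ∀ j, e j + 2 = m * k)
    (hek : e 0 + 3 ≤ Fintype.card ι + k)
    (W : ℕ → ℕ → (Fin 1 → MvPolynomial ι ℤ) → Prop) [∀ j H, DecidablePred (fun f => ¬ W j H f)]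
    (hW : ∀ j : ℕ, 1 ≤ j → ∀ ε : ℝ, 0 < ε → ∀ᶠ H : ℕ in atTop,
      (((sysZ ι e (H : ℝ)).filter (fun f => ¬ W j H f)).card : ℝ) ≤
        ε * ((sysZ ι e (H : ℝ)).card : ℝ)) :
    ∃ N : ℕ → ℕ, Tendsto N atTop atTop ∧ Tendsto (fun H : ℕ =>
      (({f : Fin 1 → MvPolynomial ι ℤ | (∀ j, (f j).IsHomogeneous (e j + 2) ∧
          ∀ a, |(f j).coeff a| ≤ (H : ℤ)) ∧ SmoothS f ∧ ElsW m f ∧
          W (N H) H f} : Set _).ncard : ℝ) /
      (({f : Fin 1 → MvPolynomial ι ℤ | (∀ j, (f j).IsHomogeneous (e j + 2) ∧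
          ∀ a, |(f j).coeff a| ≤ (H : ℤ)) ∧ SmoothS f ∧ ElsW m f} : Set _).ncard : ℝ))
      atTop (𝓝 1) := by
  classical
  simp only [ncard_eq_filterS]
  obtain ⟨c, hc0, H₁, hH₁⟩ := pos_C ι hn3 (e 0) m k hm hk1 (he 0) hek
  have hT : ∀ᶠ H : ℕ in atTop, (0 : ℝ) < ((sysZ ι e (H : ℝ)).card : ℝ) := by
    filter_upwards with H
    rw [card_sysZ]
    push_cast
    apply Finset.prod_pos
    intro j _
    exact_mod_cast card_forms_pos (ι := ι) (e j + 2) (Nat.cast_nonneg H)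
  have hca : ∀ᶠ H : ℕ in atTop, c * ((sysZ ι e (H : ℝ)).card : ℝ) ≤
      (((sysZ ι e (H : ℝ)).filter (fun f => ElsW m f)).card : ℝ) := by
    filter_upwards [eventually_ge_atTop ⌈H₁⌉₊] with H hH
    have h1 := hH₁ (H : ℝ) ((Nat.le_ceil H₁).trans (by exact_mod_cast hH))
    rw [card_sys_one]
    refine h1.trans ?_
    exact card_le_sys _ _ (fun f hf => els_of_pt (pt_of_sol (f := f) hf))
  have hns : ∀ ε : ℝ, 0 < ε → ∀ᶠ H : ℕ in atTop,
      (((sysZ ι e (H : ℝ)).filter (fun f => ¬ SmoothS f)).card : ℝ) ≤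
        ε * ((sysZ ι e (H : ℝ)).card : ℝ) := by
    intro ε hε
    obtain ⟨H₀, hH₀⟩ := smooth_dense ι e ε hε
    filter_upwards [eventually_ge_atTop ⌈H₀⌉₊] with H hH
    have h1 := hH₀ (H : ℝ) ((Nat.le_ceil H₀).trans (by exact_mod_cast hH))
    exact (card_filter_le' _ _ _ (fun _ _ h => h)).trans h1
  have hwa : ∀ j : ℕ, ∀ᶠ H : ℕ in atTop,
      (((sysZ ι e (H : ℝ)).filter (fun f => ¬ W (j + 1) H f)).card : ℝ) ≤
        1 / (j + 1) * ((sysZ ι e (H : ℝ)).card : ℝ) := by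
    intro j
    filter_upwards [hW (j + 1) (by omega) (1 / (j + 1)) (by positivity)] with H h3
    exact (card_filter_le' _ _ _ (fun _ _ h => h)).trans h3
  obtain ⟨N, hN1, hN2⟩ := diag hwa
  have hN3 : ∀ ε : ℝ, 0 < ε → ∀ᶠ H : ℕ in atTop,
      (((sysZ ι e (H : ℝ)).filter (fun f => ¬ W (N H + 1) H f)).card : ℝ) ≤
        ε * ((sysZ ι e (H : ℝ)).card : ℝ) := by
    intro ε hε
    obtain ⟨j, hj⟩ := exists_nat_gt (1 / ε)
    filter_upwards [hN2, tendsto_atTop.mp hN1 j, hT] with H h3 h4 h5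
    refine h3.trans (mul_le_mul_of_nonneg_right ?_ h5.le)
    have h6 : (j : ℝ) ≤ N H := by exact_mod_cast h4
    rw [div_le_iff₀ (by positivity)]
    rw [div_lt_iff₀ hε] at hj
    nlinarith
  refine ⟨fun H => N H + 1, tendsto_atTop_mono (fun H => Nat.le_succ _) hN1, ?_⟩
  refine ratio_one (c := c / 2) (T := fun H : ℕ => ((sysZ ι e (H : ℝ)).card : ℝ))
    (by positivity) hT (fun H => card_filter_le' _ _ _ (fun f _ h => ⟨h.1, h.2.1⟩)) ?_ ?_
  · filter_upwards [hca, hns (c / 4) (by positivity), hN3 (c / 4) (by positivity)] with H h3 h4 h5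
    have h6 : (((sysZ ι e (H : ℝ)).filter (fun f => ElsW m f)).card : ℝ) ≤
        (((sysZ ι e (H : ℝ)).filter (fun f => ¬ SmoothS f)).card : ℝ) +
        (((sysZ ι e (H : ℝ)).filter (fun f => ElsW m f ∧ SmoothS f)).card : ℝ) :=
      card_filter_le_add' _ _ _ _ (fun f _ hf => by
        by_cases hs : SmoothS f
        · right; exact ⟨hf, hs⟩
        · left; exact hs)
    have h7 : (((sysZ ι e (H : ℝ)).filter (fun f => ElsW m f ∧ SmoothS f)).card : ℝ) ≤
        (((sysZ ι e (H : ℝ)).filter (fun f => ¬ W (N H + 1) H f)).card : ℝ) +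
        (((sysZ ι e (H : ℝ)).filter (fun f => SmoothS f ∧ ElsW m f ∧
          W (N H + 1) H f)).card : ℝ) :=
      card_filter_le_add' _ _ _ _ (fun f _ hf => by
        by_cases hs : W (N H + 1) H f
        · right; exact ⟨hf.2, hf.1, hs⟩
        · left; exact hs)
    have h8 : c / 2 * ((sysZ ι e (H : ℝ)).card : ℝ) ≤
        (((sysZ ι e (H : ℝ)).filter (fun f => SmoothS f ∧ ElsW m f ∧
          W (N H + 1) H f)).card : ℝ) := by linarith
    exact h8.trans (card_filter_le' _ _ _ (fun _ _ h => h))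
  · intro ε hε
    filter_upwards [hN3 ε hε] with H h3
    have h4 : (((sysZ ι e (H : ℝ)).filter (fun f => SmoothS f ∧ ElsW m f)).card : ℝ) ≤
        (((sysZ ι e (H : ℝ)).filter (fun f => ¬ W (N H + 1) H f)).card : ℝ) +
        (((sysZ ι e (H : ℝ)).filter (fun f => SmoothS f ∧ ElsW m f ∧
          W (N H + 1) H f)).card : ℝ) :=
      card_filter_le_add' _ _ _ _ (fun f _ hf => by
        by_cases hs : W (N H + 1) H f
        · right; exact ⟨hf.1, hf.2, hs⟩
        · left; exact hs)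
    have h5 : (((sysZ ι e (H : ℝ)).filter (fun f => SmoothS f ∧ ElsW m f)).card : ℝ) -
        (((sysZ ι e (H : ℝ)).filter (fun f => SmoothS f ∧ ElsW m f ∧
          W (N H + 1) H f)).card : ℝ) ≤
        ε * ((sysZ ι e (H : ℝ)).card : ℝ) := by linarith
    exact (sub_le_sub (card_filter_le' _ _ _ (fun _ _ h => h))
      (card_filter_le' _ _ _ (fun _ _ h => h))).trans h5

theorem wapc_mono {n m k N N' : ℕ} (hN : 1 ≤ N) (hNN : N ≤ N') {H : ℝ}
    {F : MvPolynomial (Fin (n + 1)) ℤ} {P : Polynomial (MvPolynomial (Fin (n + 1 + 1)) ℤ)}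
    (h : WAPC m k N' H F P) : WAPC m k N H F P := by
  intro z v y u hz hy hyF
  obtain ⟨x, w, h1, h2, h3, ⟨c, h4, h5, h6⟩, h7⟩ := h z v y u hz hy hyF
  have hNR : (0 : ℝ) < N := by exact_mod_cast hN
  have hNMR : (N : ℝ) ≤ N' := by exact_mod_cast hNN
  refine ⟨x, w, h1, h2, fun p _ hp => ?_, ⟨c, h4, fun i => ?_, ?_⟩, h7⟩
  · obtain ⟨c, e1, e2, e3⟩ := h3 p (hp.trans hNN)
    exact ⟨c, e1, fun i => (e2 i).trans (div_le_div_of_nonneg_left (norm_nonneg _) hNR hNMR),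
      e3.trans (div_le_div_of_nonneg_left (by positivity) hNR hNMR)⟩
  · exact (h5 i).trans (div_le_div_of_nonneg_left (norm_nonneg _) hNR hNMR)
  · refine le_trans (pow_le_pow_left₀ (by positivity) ?_ m) h6
    exact mul_le_mul_of_nonneg_left hNMR (abs_nonneg _)

open scoped Classical in
theorem wapc_bad {n m k : ℕ} (hn : 2 ≤ n) (hm : 2 ≤ m) (hk : 1 ≤ k) (h : m * k ≤ n + k)
    (hi : BadCountInt (Fin (n + 1)) (fun _ : Fin 1 => m * k - 2))
    (hr : BadCountReal (Fin (n + 1)) (fun _ : Fin 1 => m * k - 2))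
    (P : Polynomial (MvPolynomial (Fin (n + 1 + 1)) ℤ)) (hP : Pool.Agent.Y214.HB.NoRoot P)
    (N : ℕ) (hN : 1 ≤ N) (ε : ℝ) (hε : 0 < ε) :
    ∀ᶠ H : ℕ in atTop,
      (((sysZ (Fin (n + 1)) (fun _ : Fin 1 => m * k - 2) (H : ℝ)).filter
        (fun f => ¬ WAPC m k N (H : ℝ) (f 0) P)).card : ℝ) ≤
        ε * ((sysZ (Fin (n + 1)) (fun _ : Fin 1 => m * k - 2) (H : ℝ)).card : ℝ) := by
  have hD2 : 2 ≤ m * k := by nlinarith
  obtain ⟨M, H₁, hM, hM2, hH₁⟩ := tested_all (n := n) (d := m * k) m P hP (max N m) (ε / 2)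
    (half_pos hε)
  obtain ⟨H₂, hH₂⟩ := wa_excC (Fin (n + 1)) (m := m) (k := k) (e := fun _ => m * k - 2)
    (by rw [Fintype.card_fin]; omega) hm hk (fun j => by omega)
    (by rw [Fintype.card_fin]; omega) hi hr (N := M) (by omega) (half_pos hε)
  filter_upwards [eventually_ge_atTop H₁, eventually_ge_atTop ⌈H₂⌉₊] with H h1 h2
  have e1 := hH₁ H h1
  have e2 := hH₂ (H : ℝ) ((Nat.le_ceil _).trans (by exact_mod_cast h2))
  rw [Pool.Agent.Y214.HB.card_filt (_hq := fun _ => Classical.propDecidable _) hD2 H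
    (fun f => ¬ TestedC m (max N m) M f P) (fun g => ¬ TestedC m (max N m) M (g 0) P)
    (fun f => Iff.rfl), Pool.Agent.Y214.HB.card_tot hD2] at e1
  have e3 : (((sysZ (Fin (n + 1)) (fun _ : Fin 1 => m * k - 2) (H : ℝ)).filter
        (fun f => ¬ WAPC m k N (H : ℝ) (f 0) P)).card : ℝ) ≤
      (((sysZ (Fin (n + 1)) (fun _ : Fin 1 => m * k - 2) (H : ℝ)).filter
        (fun g => ¬ TestedC m (max N m) M (g 0) P)).card : ℝ) +
      (((sysZ (Fin (n + 1)) (fun _ : Fin 1 => m * k - 2) (H : ℝ)).filter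
        (fun f => ¬ WAC m k M (H : ℝ) (f 0))).card : ℝ) :=
    card_filter_le_add' _ _ _ _ (fun f hf hno => by
      by_cases ht : TestedC m (max N m) M (f 0) P
      · right
        intro hw
        apply hno
        have hF : (f 0).IsHomogeneous (m * k) := by
          have h3 := (mem_sysZ.mp hf 0).1
          have h4 : m * k - 2 + 2 = m * k := by omega
          rwa [h4] at h3
        exact wapc_mono hN (le_max_left _ _) (t_FIXC (by omega) (hN.trans (le_max_left _ _))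
          (le_max_right _ _) hM hM2 hF hw ht)
      · left; exact ht)
  have e4 : (((sysZ (Fin (n + 1)) (fun _ : Fin 1 => m * k - 2) (H : ℝ)).filter
        (fun g => ¬ TestedC m (max N m) M (g 0) P)).card : ℝ) ≤
      ε / 2 * ((sysZ (Fin (n + 1)) (fun _ : Fin 1 => m * k - 2) (H : ℝ)).card : ℝ) :=
    (card_filter_le' _ _ _ (fun _ _ h => h)).trans e1
  linarith

/-- Weak approximation by points outside the thin sets, with precision and complexity tending to
infinity, for almost all smooth everywhere locally soluble Fano cyclic covers. -/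
theorem main {n m k : ℕ} (hn : 2 ≤ n) (hm : 2 ≤ m) (hk : 1 ≤ k) (h : m * k ≤ n + k)
    (hi : BadCountInt (Fin (n + 1)) (fun _ : Fin 1 => m * k - 2))
    (hr : BadCountReal (Fin (n + 1)) (fun _ : Fin 1 => m * k - 2)) :
    ∃ N : ℕ → ℕ, Tendsto N atTop atTop ∧ Tendsto (fun H : ℕ =>
      (({f : Fin 1 → MvPolynomial (Fin (n + 1)) ℤ | (∀ j, (f j).IsHomogeneous
          ((fun _ : Fin 1 => m * k - 2) j + 2) ∧
          ∀ a, |(f j).coeff a| ≤ (H : ℤ)) ∧ SmoothS f ∧ ElsW m f ∧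
          WAPC m k (N H) (H : ℝ) (f 0) (PT (n + 1) (N H))} : Set _).ncard : ℝ) /
      (({f : Fin 1 → MvPolynomial (Fin (n + 1)) ℤ | (∀ j, (f j).IsHomogeneous
          ((fun _ : Fin 1 => m * k - 2) j + 2) ∧
          ∀ a, |(f j).coeff a| ≤ (H : ℤ)) ∧ SmoothS f ∧ ElsW m f} : Set _).ncard : ℝ))
      atTop (𝓝 1) := by
  classical
  have hD2 : 2 ≤ m * k := by nlinarith
  exact ratio_prop (Fin (n + 1)) (by rw [Fintype.card_fin]; omega) hm hk
    (fun j => by omega) (by rw [Fintype.card_fin]; omega)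
    (fun N H f => WAPC m k N (H : ℝ) (f 0) (PT (n + 1) N))
    (fun j hj ε hε => wapc_bad hn hm hk h hi hr _ (pt_noRoot (n + 1) j) j hj ε hε)

end Pool.Agent.Run7.h443.HC
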