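import Pool.Agent.Y214.HB.Main

/-!
# Tests for cyclic covers: almost all forms take the value `r` modulo `p` at `a` for some `p`
-/

set_option autoImplicit false

namespace Pool.Agent.Run7.h443.HC

open Pool.Agent.Y214.HB Finset

attribute [local instance] Pool.Agent.Y994.HB.instFtTT

/-- the forms modulo `p` whose value at a given nonzero vector is not `r` -/
theorem alg_val (n d p : ℕ) [Fact p.Prime] (T : Type) [Fintype T]
    (u : T ≃ {u : Fin (n + 1) →₀ ℕ // ∑ i, u i = d})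
    (a : Fin (n + 1) → ZMod p) (ha : a ≠ 0) (r : ZMod p) :
    (({c : T → ZMod p | ¬ MvPolynomial.eval a (∑ t, MvPolynomial.monomial
      (u t : Fin (n + 1) →₀ ℕ) (c t)) = r} : Set (T → ZMod p)).ncard : ℝ) ≤
      (1 - ((p : ℝ) - 1) / (p : ℝ) ^ 2) * (p : ℝ) ^ Fintype.card T := by
  classical
  obtain ⟨i, hi⟩ : ∃ i, a i ≠ 0 := by
    by_contra h
    push Not at h
    exact ha (funext h)
  let φ : (T → ZMod p) →+ ZMod p :=
    ((MvPolynomial.eval a).toAddMonoidHom).comp (Pool.Agent.Y684.HB.frm u)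
  have hφ : ∀ c, φ c = MvPolynomial.eval a (∑ t, MvPolynomial.monomial
      (u t : Fin (n + 1) →₀ ℕ) (c t)) := fun c => rfl
  have s1 : ∑ k, (Finsupp.single i d : Fin (n + 1) →₀ ℕ) k = d := by
    simp [Finsupp.single_apply]
  set t1 : T := u.symm ⟨_, s1⟩ with ht1
  have u1 : (u t1 : Fin (n + 1) →₀ ℕ) = Finsupp.single i d := by rw [ht1, Equiv.apply_symm_apply]
  have p1 : ∀ x, φ (Pi.single t1 x) = x * a i ^ d := by
    intro x
    have h1 : φ (Pi.single t1 x) = MvPolynomial.eval a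
      (Pool.Agent.Y684.HB.frm u (Pi.single t1 x)) := rfl
    rw [h1, Pool.Agent.Y684.HB.frm_single, u1, MvPolynomial.eval_monomial,
      Finsupp.prod_single_index (h := fun n e => a n ^ e) (pow_zero _)]
  have surj : ∀ b : ZMod p, b ∈ Set.range φ := by
    intro x
    have e2 : a i ^ d ≠ 0 := pow_ne_zero _ hi
    exact ⟨Pi.single t1 (x / a i ^ d), by rw [p1, div_mul_cancel₀ _ e2]⟩
  set κ : ℕ := (Finset.univ.filter fun c : T → ZMod p => φ c = 0).card with hκ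
  have fib : ∀ b : ZMod p, (Finset.univ.filter fun c : T → ZMod p => φ c = b).card = κ := by
    intro b
    exact AddMonoidHom.card_fiber_eq_of_mem_range φ (surj b) (surj 0)
  have tot : p ^ Fintype.card T = p * κ := by
    have h1 : (Finset.univ : Finset (T → ZMod p)).card =
        ∑ b ∈ (Finset.univ : Finset (ZMod p)),
          (Finset.univ.filter fun c : T → ZMod p => φ c = b).card :=
      Finset.card_eq_sum_card_fiberwise (fun c _ => Finset.mem_coe.2 (Finset.mem_univ _))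
    rw [Finset.sum_congr rfl (fun b _ => fib b), Finset.sum_const, Finset.card_univ,
      Finset.card_univ, Fintype.card_fun, ZMod.card, smul_eq_mul] at h1
    exact h1
  have hset : {c : T → ZMod p | ¬ MvPolynomial.eval a (∑ t, MvPolynomial.monomial
      (u t : Fin (n + 1) →₀ ℕ) (c t)) = r} =
      (((Finset.univ.filter fun c : T → ZMod p => φ c = r)ᶜ : Finset (T → ZMod p)) :
        Set (T → ZMod p)) := by
    ext c
    simp only [Set.mem_ofPred_eq, Finset.coe_compl, Set.mem_compl_iff, Finset.mem_coe,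
      Finset.mem_filter, Finset.mem_univ, true_and, hφ]
  rw [hset, Set.ncard_coe_finset, Finset.card_compl, Fintype.card_fun, ZMod.card, fib r]
  have hp1 : 1 ≤ p := (Fact.out : p.Prime).one_lt.le
  have hpos : (0 : ℝ) < p := by exact_mod_cast hp1
  have hle2 : κ ≤ p ^ Fintype.card T := by
    rw [tot]; exact Nat.le_mul_of_pos_left _ hp1
  have htot : ((p : ℝ) ^ Fintype.card T) = (p : ℝ) * κ := by exact_mod_cast tot
  rw [Nat.cast_sub hle2]
  push_cast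
  rw [htot]
  have h1 : (1 - ((p : ℝ) - 1) / (p : ℝ) ^ 2) * ((p : ℝ) * κ) =
      p * κ - (((p : ℝ) - 1) / p) * κ := by
    field_simp
  rw [h1]
  have h2 : ((p : ℝ) - 1) / p ≤ 1 := by
    rw [div_le_one hpos]; linarith
  have h3 : ((p : ℝ) - 1) / p * κ ≤ 1 * κ := mul_le_mul_of_nonneg_right h2 (Nat.cast_nonneg _)
  linarith

theorem den1 (n d : ℕ) (A : Finset ℕ) (hA : ∀ p ∈ A, p.Prime)
    (a : ℕ → Fin (n + 1) → ℤ) (r : ℕ → ℤ) (ha : ∀ p ∈ A, ∃ i, ¬ (p : ℤ) ∣ a p i) (ε : ℝ)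
    (hε : 0 < ε) : ∃ H₀ : ℕ, ∀ H : ℕ, H₀ ≤ H →
      (({f | f ∈ Fm n d H ∧ ∀ p ∈ A, ¬ (p : ℤ) ∣ r p - MvPolynomial.eval (a p) f} :
        Set _).ncard : ℝ) ≤
        (∏ p ∈ A, (1 - ((p : ℝ) - 1) / (p : ℝ) ^ 2) + ε) * ((Fm n d H).ncard : ℝ) := by
  classical
  obtain ⟨H₀, hH₀⟩ := Pool.Agent.Y297.HB.t_BOX (Pool.Agent.Y994.HB.TT n d) A hA
    (fun p => {c : Pool.Agent.Y994.HB.TT n d → ZMod p |
      ¬ MvPolynomial.eval (fun i => (a p i : ZMod p)) (Pool.Agent.Y994.HB.pol c) = (r p : ZMod p)})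
    (fun p => 1 - ((p : ℝ) - 1) / (p : ℝ) ^ 2)
    (fun p hp => by
      have : Fact p.Prime := ⟨hA p hp⟩
      refine alg_val n d p (Pool.Agent.Y994.HB.TT n d) (Equiv.refl _)
        (fun i => (a p i : ZMod p)) ?_ _
      intro h0
      obtain ⟨i, hi⟩ := ha p hp
      apply hi
      exact (CharP.intCast_eq_zero_iff (ZMod p) p _).1 (congrFun h0 i)) ε hε
  refine ⟨H₀, fun H hH => ?_⟩
  refine le_trans ?_ (le_trans (hH₀ H hH) (le_of_eq (by rw [Pool.Agent.Y994.HB.Fm_card])))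
  have hsub : {f | f ∈ Fm n d H ∧ ∀ p ∈ A, ¬ (p : ℤ) ∣ r p - MvPolynomial.eval (a p) f} ⊆
      Pool.Agent.Y994.HB.pol '' {c : Pool.Agent.Y994.HB.TT n d → ℤ | (∀ t, |c t| ≤ (H : ℤ)) ∧
        ∀ p ∈ A, (fun t => (c t : ZMod p)) ∈
        {c : Pool.Agent.Y994.HB.TT n d → ZMod p | ¬ MvPolynomial.eval
          (fun i => (a p i : ZMod p)) (Pool.Agent.Y994.HB.pol c) = (r p : ZMod p)}} := by
    rintro f ⟨hf, hT⟩
    rw [Pool.Agent.Y994.HB.Fm_eq] at hf
    obtain ⟨c, hc, rfl⟩ := hf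
    refine ⟨c, ⟨hc, fun p hp => ?_⟩, rfl⟩
    intro hcon
    apply hT p hp
    rw [← Pool.Agent.Y994.HB.map_pol, Pool.Agent.Y994.HB.eval_cast] at hcon
    rw [← CharP.intCast_eq_zero_iff (ZMod p) p, Int.cast_sub, hcon, sub_self]
  have hfin : {c : Pool.Agent.Y994.HB.TT n d → ℤ | (∀ t, |c t| ≤ (H : ℤ)) ∧
        ∀ p ∈ A, (fun t => (c t : ZMod p)) ∈
        {c : Pool.Agent.Y994.HB.TT n d → ZMod p | ¬ MvPolynomial.eval
          (fun i => (a p i : ZMod p)) (Pool.Agent.Y994.HB.pol c) = (r p : ZMod p)}}.Finite :=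
    (Pool.Agent.Y994.HB.box_fin n d H).subset fun c hc => hc.1
  have h3 := Set.ncard_le_ncard hsub (hfin.image _)
  rw [Set.ncard_image_of_injective _ Pool.Agent.Y994.HB.pol_inj] at h3
  exact_mod_cast h3

/-- Almost all forms `f` satisfy `f (a p) ≡ r p` modulo `p` for some `p ∈ L`, `m < p ≤ M`. -/
theorem den (n d : ℕ) (L : Set ℕ) (hL : ∀ p ∈ L, p.Prime) (hD : Dv L)
    (a : ℕ → Fin (n + 1) → ℤ) (r : ℕ → ℤ) (ha : ∀ p ∈ L, ∃ i, ¬ (p : ℤ) ∣ a p i) (ε : ℝ)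
    (hε : 0 < ε) (m : ℕ) : ∃ M H₀ : ℕ, m ≤ M ∧ ∀ H : ℕ, H₀ ≤ H →
      (({f | f ∈ Fm n d H ∧ ∀ p ∈ L, m < p → p ≤ M → ¬ (p : ℤ) ∣ r p -
        MvPolynomial.eval (a p) f} : Set _).ncard : ℝ) ≤ ε * ((Fm n d H).ncard : ℝ) := by
  obtain ⟨A, hA, hP⟩ := Pool.Agent.Y96.HB.t_PROD L hL hD (ε / 2) (by positivity) m
  obtain ⟨H₀, hH⟩ := den1 n d A (fun p hp => hL p (hA p hp).1) a r
    (fun p hp => ha p (hA p hp).1) (ε / 2) (by positivity)
  refine ⟨max m (A.sup id), H₀, le_max_left _ _, fun H hHH => ?_⟩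
  have h3 : (({f | f ∈ Fm n d H ∧ ∀ p ∈ L, m < p → p ≤ max m (A.sup id) →
      ¬ (p : ℤ) ∣ r p - MvPolynomial.eval (a p) f} :
      Set _).ncard : ℝ) ≤ (({f | f ∈ Fm n d H ∧ ∀ p ∈ A,
        ¬ (p : ℤ) ∣ r p - MvPolynomial.eval (a p) f} : Set _).ncard : ℝ) := by
    have : ({f | f ∈ Fm n d H ∧ ∀ p ∈ L, m < p → p ≤ max m (A.sup id) →
      ¬ (p : ℤ) ∣ r p - MvPolynomial.eval (a p) f} :
      Set (MvPolynomial (Fin (n + 1)) ℤ)).ncard ≤
        ({f | f ∈ Fm n d H ∧ ∀ p ∈ A, ¬ (p : ℤ) ∣ r p - MvPolynomial.eval (a p) f} :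
          Set _).ncard := by
      refine Set.ncard_le_ncard ?_ ((Pool.Agent.Y96.HB.Fm_finite n d H).subset fun f hf => hf.1)
      rintro f ⟨hf, hf2⟩
      refine ⟨hf, fun p hp => hf2 p (hA p hp).1 (hA p hp).2 ?_⟩
      exact (Finset.le_sup (f := id) hp).trans (le_max_right _ _)
    exact_mod_cast this
  refine h3.trans ((hH H hHH).trans ?_)
  have h4 : (0:ℝ) ≤ ((Fm n d H).ncard : ℝ) := by positivity
  refine mul_le_mul_of_nonneg_right ?_ h4
  linarith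

end Pool.Agent.Run7.h443.HC
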