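import Pool.Agent.Run7.h443.HC.Den
import Pool.Agent.Run7.h443.CD.T6

/-!
# Cyclic covers: from weak approximation and tests to points outside thin sets
-/

set_option autoImplicit false

namespace Pool.Agent.Run7.h443.HC

open Polynomial Pool.Agent.Y214.HB Pool.Agent.Run7.h443.CD

/-- Hensel's lemma for an `m`-th power -/
theorem hen {p : ℕ} [Fact p.Prime] {m : ℕ} (hpm : ¬ p ∣ m) {a r : ℤ}
    (ha : ¬ (p : ℤ) ∣ a) (h : (p : ℤ) ∣ a ^ m - r) :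
    ∃ v : ℚ_[p], v ^ m = (r : ℚ_[p]) ∧ ‖v - (a : ℚ_[p])‖ < 1 := by
  have hpr : Prime (p : ℤ) := Nat.prime_iff_prime_int.1 Fact.out
  have h1 : (X ^ m - C r : ℤ[X]).aeval (a : ℤ_[p]) = ((a ^ m - r : ℤ) : ℤ_[p]) := by simp
  have h2 : (X ^ m - C r : ℤ[X]).derivative.aeval (a : ℤ_[p]) =
      ((m * a ^ (m - 1) : ℤ) : ℤ_[p]) := by
    rw [derivative_sub, derivative_C, sub_zero, derivative_X_pow]
    simp
  have h3 : ‖(X ^ m - C r : ℤ[X]).derivative.aeval (a : ℤ_[p])‖ = 1 := by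
    rw [h2]
    refine le_antisymm (PadicInt.norm_le_one _) (not_lt.mp fun hlt => ?_)
    rw [PadicInt.norm_int_lt_one_iff_dvd] at hlt
    rcases hpr.dvd_or_dvd hlt with h4 | h4
    · exact hpm (by exact_mod_cast h4)
    · exact ha (hpr.dvd_of_dvd_pow h4)
  have h4 : ‖(X ^ m - C r : ℤ[X]).aeval (a : ℤ_[p])‖ <
      ‖(X ^ m - C r : ℤ[X]).derivative.aeval (a : ℤ_[p])‖ ^ 2 := by
    rw [h3, one_pow, h1, PadicInt.norm_int_lt_one_iff_dvd]
    exact h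
  obtain ⟨z, hz1, hz2, -, -⟩ := hensels_lemma h4
  rw [h3] at hz2
  have hz3 : z ^ m = (r : ℤ_[p]) := by
    simp only [map_sub, map_pow, aeval_X, aeval_C] at hz1
    simpa using sub_eq_zero.1 hz1
  refine ⟨z, ?_, ?_⟩
  · have := congrArg (fun t : ℤ_[p] => (t : ℚ_[p])) hz3
    simpa using this
  · have h5 : ‖((z - (a : ℤ_[p]) : ℤ_[p]) : ℚ_[p])‖ < 1 := by
      rw [← PadicInt.norm_def]; exact hz2
    simpa using h5

/-- the test at `p`: the point `a = (w, x)` lies on the cyclic cover modulo `p` -/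
def TestC {n : ℕ} (m : ℕ) (F : MvPolynomial (Fin (n + 1)) ℤ) (p : ℕ)
    (a : Fin (n + 1 + 1) → ℤ) : Prop :=
  ¬ (p : ℤ) ∣ a 0 ∧ (∃ i : Fin (n + 1), ¬ (p : ℤ) ∣ a i.succ) ∧
    (p : ℤ) ∣ a 0 ^ m - MvPolynomial.eval (fun i => a i.succ) F

/-- `F` passes the tests at distinct primes between `N` and `M` for factors of `P` -/
def TestedC {n : ℕ} (m N M : ℕ) (F : MvPolynomial (Fin (n + 1)) ℤ)
    (P : (MvPolynomial (Fin (n + 1 + 1)) ℤ)[X]) : Prop :=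
  ∃ (k : ℕ) (Q : Fin k → (MvPolynomial (Fin (n + 1 + 1)) ℤ)[X])
    (c : MvPolynomial (Fin (n + 1 + 1)) ℤ)
    (l : Fin k → ℕ) (a : Fin k → Fin (n + 1 + 1) → ℤ), C c * P = ∏ i, Q i ∧
    Function.Injective l ∧ ∀ i, (l i).Prime ∧ N < l i ∧ l i ≤ M ∧ Obs (Q i) (l i) (a i) ∧
      TestC m F (l i) (a i)

/-- weak approximation to precision `1 / N` by points `(x, w)` such that `P(w, x; t)` has no
rational root `t` -/
def WAPC {n : ℕ} (m k N : ℕ) (H : ℝ) (F : MvPolynomial (Fin (n + 1)) ℤ)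
    (P : (MvPolynomial (Fin (n + 1 + 1)) ℤ)[X]) : Prop :=
  ∀ (z : ∀ (p : ℕ) [Fact p.Prime], Fin (n + 1) → ℚ_[p]) (v : ∀ (p : ℕ) [Fact p.Prime], ℚ_[p])
    (y : Fin (n + 1) → ℝ) (u : ℝ),
    (∀ (p : ℕ) [Fact p.Prime], z p ≠ 0 ∧ v p ^ m = MvPolynomial.aeval (z p) F) → y ≠ 0 →
    u ^ m = MvPolynomial.aeval y F →
    ∃ (x : Fin (n + 1) → ℚ) (w : ℚ), x ≠ 0 ∧ w ^ m = MvPolynomial.aeval x F ∧
      (∀ (p : ℕ) [Fact p.Prime], p ≤ N → ∃ c : ℚ_[p], c ≠ 0 ∧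
        (∀ i, ‖z p i - c * (x i : ℚ_[p])‖ ≤ ‖z p‖ / N) ∧
        ‖v p - c ^ k * (w : ℚ_[p])‖ ≤ ‖z p‖ ^ k / N) ∧
      (∃ c : ℝ, c ≠ 0 ∧ (∀ i, |y i - c * (x i : ℝ)| ≤ ‖y‖ / N) ∧
        (|u - c ^ k * (w : ℝ)| * N) ^ m ≤ H * ‖y‖ ^ (m * k)) ∧
      ∀ t : ℚ, (P.map (evQ (Fin.cons w x))).eval t ≠ 0

/-- the conditions on the new local point -/
def Cd {n k : ℕ} (m : ℕ) (F : MvPolynomial (Fin (n + 1)) ℤ) (l : Fin k → ℕ)
    (a : Fin k → Fin (n + 1 + 1) → ℤ) (p : ℕ) [Fact p.Prime] (v : (Fin (n + 1) → ℚ_[p]) × ℚ_[p]) :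
    Prop :=
  v.1 ≠ 0 ∧ v.2 ^ m = MvPolynomial.aeval v.1 F ∧ ‖v.1‖ ≤ 1 ∧
    ∀ i, l i = p → (∀ j, v.1 j = (a i j.succ : ℚ_[p])) ∧ ‖v.2 - (a i 0 : ℚ_[p])‖ < 1

theorem two {p : ℕ} [Fact p.Prime] {u v : ℚ_[p]} (hu : ‖u‖ < 1) (hv : ‖v‖ < 1) :
    ‖u + v‖ < 1 :=
  lt_of_le_of_lt (IsUltrametricDist.norm_add_le_max _ _) (max_lt hu hv)

/-- perturbation of a product -/
theorem pow_near {p : ℕ} [Fact p.Prime] (c w : ℚ_[p]) (k : ℕ) :
    ∃ δ : ℝ, 0 < δ ∧ ∀ c' : ℚ_[p], ‖c' - c‖ ≤ δ → ‖c' ^ k * w - c ^ k * w‖ < 1 := by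
  have h1 : ContinuousAt (fun t : ℚ_[p] => t ^ k * w - c ^ k * w) c := by fun_prop
  have h2 := Metric.continuousAt_iff.1 h1 1 one_pos
  obtain ⟨δ, hδ, h3⟩ := h2
  refine ⟨δ / 2, by positivity, fun c' hc' => ?_⟩
  have h4 := h3 (x := c') (by rw [dist_eq_norm]; linarith)
  rw [dist_eq_norm] at h4
  simpa using h4

theorem t_FIXC {n m k N M : ℕ} (hm : 1 ≤ m) (hN : 1 ≤ N) (hmN : m ≤ N)
    (hNM : N ≤ M) (hM : 2 ≤ M) {H : ℝ} {F : MvPolynomial (Fin (n + 1)) ℤ}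
    (hF : F.IsHomogeneous (m * k)) {P : (MvPolynomial (Fin (n + 1 + 1)) ℤ)[X]}
    (hWA : WAC m k M H F) (hT : TestedC m N M F P) : WAPC m k N H F P := by
  classical
  intro z v y u hz hy hyF
  obtain ⟨K, Q, c, l, a, hcP, hinj, hl⟩ := hT
  have hFact : ∀ i, Fact (l i).Prime := fun i => ⟨(hl i).1⟩
  have hNR : (0 : ℝ) < N := by exact_mod_cast hN
  have hMR : (2 : ℝ) ≤ M := by exact_mod_cast hM
  have hNMR : (N : ℝ) ≤ M := by exact_mod_cast hNM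
  -- the new local points
  let z' : ∀ (p : ℕ) [Fact p.Prime], (Fin (n + 1) → ℚ_[p]) × ℚ_[p] := fun p _ =>
    if h : (∃ i, l i = p) ∧ ∃ v : (Fin (n + 1) → ℚ_[p]) × ℚ_[p], Cd m F l a p v then
      h.2.choose else (z p, v p)
  have hz'1 : ∀ (p : ℕ) [Fact p.Prime], (¬ ∃ i, l i = p) → z' p = (z p, v p) := by
    intro p _ h
    exact dif_neg fun h' => h h'.1
  have hz'2 : ∀ i, Cd m F l a (l i) (z' (l i)) := by
    intro i
    have hex : (∃ j, l j = l i) ∧ ∃ v : (Fin (n + 1) → ℚ_[l i]) × ℚ_[l i],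
        Cd m F l a (l i) v := by
      refine ⟨⟨i, rfl⟩, ?_⟩
      obtain ⟨ha0, ⟨i₀, hi₀⟩, hval⟩ := (hl i).2.2.2.2
      obtain ⟨t, ht1, ht2⟩ := hen (p := l i) (m := m) (fun hd => by
        have h1 := Nat.le_of_dvd (by omega) hd
        have h2 := (hl i).2.1
        omega) ha0 hval
      refine ⟨(fun j => (a i j.succ : ℚ_[l i]), t), ?_, ?_, ?_, fun j hj => ?_⟩
      · intro h0
        have h1 := congrFun h0 i₀
        simp only [Pi.zero_apply, Int.cast_eq_zero] at h1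
        rw [h1] at hi₀
        exact hi₀ (dvd_zero _)
      · simp only
        rw [ht1, Pool.Agent.Y70.HB.aeval_cast (fun j => a i j.succ) F]
      · rw [pi_norm_le_iff_of_nonneg zero_le_one]
        intro j
        exact Padic.norm_int_le_one _
      · rw [hinj hj]
        exact ⟨fun _ => rfl, ht2⟩
    have e : z' (l i) = hex.2.choose := dif_pos hex
    rw [e]
    exact hex.2.choose_spec
  have hz' : ∀ (p : ℕ) [Fact p.Prime], (z' p).1 ≠ 0 ∧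
      (z' p).2 ^ m = MvPolynomial.aeval (z' p).1 F := by
    intro p _
    by_cases h : (∃ i, l i = p) ∧ ∃ v : (Fin (n + 1) → ℚ_[p]) × ℚ_[p], Cd m F l a p v
    · have e : z' p = h.2.choose := dif_pos h
      rw [e]
      exact ⟨h.2.choose_spec.1, h.2.choose_spec.2.1⟩
    · have e : z' p = (z p, v p) := dif_neg h
      rw [e]
      exact hz p
  obtain ⟨x, w, hx0, hxF, hxp, cr, hcr0, hcr, hcr'⟩ :=
    hWA (fun p _ => (z' p).1) (fun p _ => (z' p).2) y u hz' hy hyF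
  let cp : ∀ (p : ℕ) [Fact p.Prime], ℚ_[p] := fun p _ =>
    if h : p ≤ M then (hxp p h).choose else 0
  have hcp : ∀ (p : ℕ) [Fact p.Prime], p ≤ M → cp p ≠ 0 ∧
      (∀ i, ‖(z' p).1 i - cp p * (x i : ℚ_[p])‖ ≤ ‖(z' p).1‖ / M) ∧
      ‖(z' p).2 - cp p ^ k * (w : ℚ_[p])‖ ≤ ‖(z' p).1‖ ^ k / M := by
    intro p _ h
    have e : cp p = (hxp p h).choose := dif_pos h
    rw [e]
    exact (hxp p h).choose_spec
  -- the common scalar
  have hδ : ∀ i, ∃ δ : ℝ, 0 < δ ∧ ∀ c' : ℚ_[l i], ‖c' - cp (l i)‖ ≤ δ →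
      ‖c' ^ k * (w : ℚ_[l i]) - cp (l i) ^ k * (w : ℚ_[l i])‖ < 1 ∧
      ∀ j, ‖c' ^ 1 * (x j : ℚ_[l i]) - cp (l i) ^ 1 * (x j : ℚ_[l i])‖ < 1 := by
    intro i
    obtain ⟨δ₁, hδ₁, h1⟩ := pow_near (cp (l i)) (w : ℚ_[l i]) k
    choose δ₂ hδ₂ h2 using fun j => pow_near (cp (l i)) (x j : ℚ_[l i]) 1
    obtain ⟨δ₃, hδ₃⟩ : ∃ δ₃ : ℝ, δ₃ = Finset.univ.inf' Finset.univ_nonempty δ₂ := ⟨_, rfl⟩
    have hδ₃0 : 0 < δ₃ := by
      rw [hδ₃, Finset.lt_inf'_iff]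
      exact fun j _ => hδ₂ j
    refine ⟨min δ₁ δ₃, lt_min hδ₁ hδ₃0, fun c' hc' => ⟨h1 c' (hc'.trans (min_le_left _ _)),
      fun j => h2 j c' (hc'.trans ((min_le_right _ _).trans ?_))⟩⟩
    rw [hδ₃]
    exact Finset.inf'_le _ (Finset.mem_univ j)
  choose δ hδ0 hδ1 using hδ
  obtain ⟨δm, hδm0, hδm⟩ : ∃ δm : ℝ, 0 < δm ∧ ∀ i, δm ≤ δ i := by
    rcases isEmpty_or_nonempty (Fin K) with hK | hK
    · exact ⟨1, one_pos, fun i => isEmptyElim i⟩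
    · refine ⟨Finset.univ.inf' Finset.univ_nonempty δ, ?_, fun i =>
        Finset.inf'_le _ (Finset.mem_univ i)⟩
      rw [Finset.lt_inf'_iff]
      exact fun j _ => hδ0 j
  obtain ⟨c0, hc0, hc0p⟩ := Pool.Agent.Y420.HB.t_SCL (Finset.univ.image l) cp δm hδm0
  have hnear : ∀ i, ∀ j : Fin (n + 1 + 1),
      ‖((((Fin.cons (c0 ^ k * w) (fun j => c0 * x j) : Fin (n + 1 + 1) → ℚ) j : ℚ)) : ℚ_[l i]) -
        (a i j : ℚ_[l i])‖ < 1 := by
    intro i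
    have e1 := hc0p (l i) (Finset.mem_image_of_mem l (Finset.mem_univ i))
    obtain ⟨e2, e3⟩ := hδ1 i (c0 : ℚ_[l i]) (e1.trans (hδm i))
    obtain ⟨-, hc1, hc2⟩ := hcp (l i) (hl i).2.2.1
    obtain ⟨-, -, hz3, hz4⟩ := hz'2 i
    obtain ⟨hz5, hz6⟩ := hz4 i rfl
    intro j
    refine Fin.cases ?_ (fun j => ?_) j
    · have e4 : ‖cp (l i) ^ k * (w : ℚ_[l i]) - (z' (l i)).2‖ < 1 := by
        rw [norm_sub_rev]
        refine lt_of_le_of_lt hc2 ?_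
        rw [div_lt_one (by linarith)]
        have := pow_le_one₀ (n := k) (norm_nonneg _) hz3
        linarith
      have e5 : ((((Fin.cons (c0 ^ k * w) (fun j => c0 * x j) : Fin (n + 1 + 1) → ℚ) 0 : ℚ)) :
          ℚ_[l i]) - (a i 0 : ℚ_[l i]) =
          ((c0 : ℚ_[l i]) ^ k * (w : ℚ_[l i]) - cp (l i) ^ k * (w : ℚ_[l i])) +
          ((cp (l i) ^ k * (w : ℚ_[l i]) - (z' (l i)).2) + ((z' (l i)).2 - (a i 0 : ℚ_[l i]))) := by
        rw [Fin.cons_zero]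
        push_cast
        ring
      rw [e5]
      exact two e2 (two e4 hz6)
    · have e4 : ‖cp (l i) * (x j : ℚ_[l i]) - (z' (l i)).1 j‖ < 1 := by
        rw [norm_sub_rev]
        refine lt_of_le_of_lt (hc1 j) ?_
        rw [div_lt_one (by linarith)]
        linarith
      have e6 := e3 j
      rw [pow_one, pow_one] at e6
      have e5 : ((((Fin.cons (c0 ^ k * w) (fun j => c0 * x j) : Fin (n + 1 + 1) → ℚ) j.succ : ℚ)) :
          ℚ_[l i]) - (a i j.succ : ℚ_[l i]) =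
          ((c0 : ℚ_[l i]) * (x j : ℚ_[l i]) - cp (l i) * (x j : ℚ_[l i])) +
          (cp (l i) * (x j : ℚ_[l i]) - (z' (l i)).1 j) := by
        rw [Fin.cons_succ, hz5 j]
        push_cast
        ring
      rw [e5]
      exact two e6 e4
  refine ⟨fun j => c0 * x j, c0 ^ k * w, ?_, ?_, ?_, ?_, ?_⟩
  · intro h
    apply hx0
    funext j
    exact (mul_eq_zero.1 (congrFun h j)).resolve_left hc0
  · rw [Pool.Agent.Y67.HB.aeval_scale hF, mul_pow, hxF, ← pow_mul, mul_comm k m]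
  · intro p _ hp
    obtain ⟨e1, e2, e2'⟩ := hcp p (hp.trans hNM)
    have hc0' : (c0 : ℚ_[p]) ≠ 0 := by exact_mod_cast hc0
    have e3 : z' p = (z p, v p) := hz'1 p fun ⟨i, hi⟩ => by
      have := (hl i).2.1
      omega
    rw [e3] at e2 e2'
    refine ⟨cp p / c0, div_ne_zero e1 hc0', fun i => ?_, ?_⟩
    · have e4 : cp p / (c0 : ℚ_[p]) * ((c0 * x i : ℚ) : ℚ_[p]) = cp p * (x i : ℚ_[p]) := by
        push_cast
        field_simp
      rw [e4]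
      exact (e2 i).trans (div_le_div_of_nonneg_left (norm_nonneg _) hNR hNMR)
    · have e4 : (cp p / (c0 : ℚ_[p])) ^ k * ((c0 ^ k * w : ℚ) : ℚ_[p]) =
          cp p ^ k * (w : ℚ_[p]) := by
        push_cast
        rw [div_pow]
        field_simp
      rw [e4]
      exact e2'.trans (div_le_div_of_nonneg_left (by positivity) hNR hNMR)
  · have hc0' : (c0 : ℝ) ≠ 0 := by exact_mod_cast hc0
    refine ⟨cr / c0, div_ne_zero hcr0 hc0', fun i => ?_, ?_⟩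
    · have e4 : cr / (c0 : ℝ) * ((c0 * x i : ℚ) : ℝ) = cr * (x i : ℝ) := by
        push_cast
        field_simp
      rw [e4]
      exact (hcr i).trans (div_le_div_of_nonneg_left (norm_nonneg _) hNR hNMR)
    · have e4 : (cr / (c0 : ℝ)) ^ k * ((c0 ^ k * w : ℚ) : ℝ) = cr ^ k * (w : ℝ) := by
        push_cast
        rw [div_pow]
        field_simp
      rw [e4]
      refine le_trans (pow_le_pow_left₀ (by positivity) ?_ m) hcr'
      exact mul_le_mul_of_nonneg_left hNMR (abs_nonneg _)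
  · intro t ht
    have e : ((C c * P).map (evQ (Fin.cons (c0 ^ k * w) fun j => c0 * x j))).eval t = 0 := by
      rw [Polynomial.map_mul, eval_mul, ht, mul_zero]
    rw [hcP, Polynomial.map_prod, eval_prod, Finset.prod_eq_zero_iff] at e
    obtain ⟨i, -, hi⟩ := e
    exact Pool.Agent.Y420.HB.t_LOC (n + 1) (Q i) (l i) (a i) (hl i).2.2.2.1 _ (hnear i) t hi

end Pool.Agent.Run7.h443.HC
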