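import Pool.Agent.Run7.h443.HC.Fix

/-!
# Cyclic covers: tests for all the factors of a polynomial without root
-/

set_option autoImplicit false

namespace Pool.Agent.Run7.h443.HC

open Polynomial Filter Topology Pool.Agent.Y214.HB

theorem kind_mul {n : ℕ} {P : (MvPolynomial (Fin (n + 1)) ℤ)[X]} (hP : Kind P)
    {G : MvPolynomial (Fin (n + 1)) ℤ} (hG : G ≠ 0) : Kind (C G * P) := by
  rcases hP with ⟨G', hG', rfl⟩ | ⟨hd, hirr⟩
  · left
    exact ⟨G * G', mul_ne_zero hG hG', by rw [C_mul]⟩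
  · right
    refine ⟨?_, ?_⟩
    · rwa [natDegree_C_mul hG]
    · unfold toK at hirr ⊢
      rw [Polynomial.map_mul, map_C]
      have hu : IsUnit (C (algebraMap (MvPolynomial (Fin (n + 1)) ℤ)
          (FractionRing (MvPolynomial (Fin (n + 1)) ℤ)) G)) := by
        rw [isUnit_C, isUnit_iff_ne_zero]
        intro h0
        exact hG ((IsFractionRing.injective _ _) (by rw [h0, map_zero]))
      exact (irreducible_isUnit_mul hu).2 hirr

theorem base_cover {n : ℕ} {P : (MvPolynomial (Fin (n + 1 + 1)) ℤ)[X]} (hP : Kind P) :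
    Dv {p : ℕ | p.Prime ∧ ∃ a : Fin (n + 1 + 1) → ℤ, ¬ (p : ℤ) ∣ a 0 ∧
      (∃ i : Fin (n + 1), ¬ (p : ℤ) ∣ a i.succ) ∧ Obs P p a} := by
  have hG : (MvPolynomial.X 0 * MvPolynomial.X 1 : MvPolynomial (Fin (n + 1 + 1)) ℤ) ≠ 0 :=
    mul_ne_zero (MvPolynomial.X_ne_zero 0) (MvPolynomial.X_ne_zero 1)
  have h1 := base (n + 1) _ (kind_mul hP hG)
  unfold Base at h1
  refine Pool.Agent.Y932.HB.dv_of Set.finite_empty h1 ?_
  rintro p ⟨hp, a, -, ha1, ha2⟩ -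
  have hpr : Prime (p : ℤ) := Nat.prime_iff_prime_int.1 hp
  rw [leadingCoeff_mul, leadingCoeff_C, map_mul, map_mul, MvPolynomial.eval_X,
    MvPolynomial.eval_X] at ha1
  refine ⟨hp, a, fun h => ha1 ?_, ⟨0, fun h => ha1 ?_⟩, fun h => ha1 ?_, fun w h => ha2 w ?_⟩
  · exact Dvd.dvd.mul_right (Dvd.dvd.mul_right h _) _
  · exact Dvd.dvd.mul_right (Dvd.dvd.mul_left h _) _
  · exact Dvd.dvd.mul_left h _
  · rw [Polynomial.map_mul, eval_mul]
    exact Dvd.dvd.mul_left h _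

/-- the tests for finitely many polynomials -/
theorem tests_all {n d : ℕ} (m : ℕ) :
    ∀ (k : ℕ) (Q : Fin k → (MvPolynomial (Fin (n + 1 + 1)) ℤ)[X]), (∀ i, Kind (Q i)) →
    ∀ (N : ℕ) (ε : ℝ), 0 < ε → ∃ M H₀ : ℕ, N ≤ M ∧ ∀ H : ℕ, H₀ ≤ H →
      (({f | f ∈ Fm n d H ∧ ¬ ∃ (l : Fin k → ℕ) (a : Fin k → Fin (n + 1 + 1) → ℤ),
        Function.Injective l ∧ ∀ i, (l i).Prime ∧ N < l i ∧ l i ≤ M ∧ Obs (Q i) (l i) (a i) ∧
          TestC m f (l i) (a i)} : Set _).ncard : ℝ) ≤ ε * ((Fm n d H).ncard : ℝ) := by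
  intro k
  have hfin : ∀ H, (Fm n d H).Finite := fun H => fm_finite n d H
  induction k with
  | zero =>
    intro Q _ N ε hε
    refine ⟨N, 0, le_rfl, fun H _ => ?_⟩
    have h0 : ({f | f ∈ Fm n d H ∧ ¬ ∃ (l : Fin 0 → ℕ) (a : Fin 0 → Fin (n + 1 + 1) → ℤ),
        Function.Injective l ∧ ∀ i, (l i).Prime ∧ N < l i ∧ l i ≤ N ∧ Obs (Q i) (l i) (a i) ∧
          TestC m f (l i) (a i)} : Set _) = ∅ := by
      rw [Set.eq_empty_iff_forall_notMem]
      rintro f ⟨-, hf⟩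
      exact hf ⟨Fin.elim0, Fin.elim0, fun i => i.elim0, fun i => i.elim0⟩
    rw [h0, Set.ncard_empty, Nat.cast_zero]
    positivity
  | succ k ih =>
    intro Q hQ N ε hε
    obtain ⟨L, hL⟩ : ∃ L : Set ℕ, L = {p : ℕ | p.Prime ∧ ∃ a : Fin (n + 1 + 1) → ℤ,
        ¬ (p : ℤ) ∣ a 0 ∧ (∃ i : Fin (n + 1), ¬ (p : ℤ) ∣ a i.succ) ∧ Obs (Q 0) p a} := ⟨_, rfl⟩
    have hex : ∀ p : ℕ, ∃ a : Fin (n + 1 + 1) → ℤ, p ∈ L →
        ¬ (p : ℤ) ∣ a 0 ∧ (∃ i : Fin (n + 1), ¬ (p : ℤ) ∣ a i.succ) ∧ Obs (Q 0) p a := by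
      intro p
      by_cases hp : p ∈ L
      · rw [hL] at hp
        obtain ⟨h1, a, ha⟩ := hp
        exact ⟨a, fun _ => ha⟩
      · exact ⟨0, fun h => absurd h hp⟩
    choose a ha using hex
    have hLD : Dv L := by rw [hL]; exact base_cover (hQ 0)
    have hLP : ∀ p ∈ L, p.Prime := by rw [hL]; exact fun p hp => hp.1
    obtain ⟨M₁, H₁, hM₁, hH₁⟩ := den n d L hLP hLD (fun p i => a p i.succ) (fun p => a p 0 ^ m)
      (fun p hp => (ha p hp).2.1) (ε / 2) (half_pos hε) N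
    obtain ⟨M₂, H₂, hM₂, hH₂⟩ := ih (fun i => Q i.succ) (fun i => hQ i.succ) M₁ (ε / 2)
      (half_pos hε)
    refine ⟨M₂, max H₁ H₂, hM₁.trans hM₂, fun H hH => ?_⟩
    have h1 := hH₁ H ((le_max_left _ _).trans hH)
    have h2 := hH₂ H ((le_max_right _ _).trans hH)
    have hsub : {f | f ∈ Fm n d H ∧ ¬ ∃ (l : Fin (k + 1) → ℕ)
        (a : Fin (k + 1) → Fin (n + 1 + 1) → ℤ),
        Function.Injective l ∧ ∀ i, (l i).Prime ∧ N < l i ∧ l i ≤ M₂ ∧ Obs (Q i) (l i) (a i) ∧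
          TestC m f (l i) (a i)} ⊆
        {f | f ∈ Fm n d H ∧ ∀ p ∈ L, N < p → p ≤ M₁ → ¬ (p : ℤ) ∣ a p 0 ^ m -
          MvPolynomial.eval (fun i => a p i.succ) f} ∪
        {f | f ∈ Fm n d H ∧ ¬ ∃ (l : Fin k → ℕ) (a : Fin k → Fin (n + 1 + 1) → ℤ),
        Function.Injective l ∧ ∀ i, (l i).Prime ∧ M₁ < l i ∧ l i ≤ M₂ ∧
          Obs (Q i.succ) (l i) (a i) ∧ TestC m f (l i) (a i)} := by
      rintro f ⟨hf, hno⟩
      by_contra hcon
      rw [Set.mem_union, not_or] at hcon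
      obtain ⟨hc1, hc2⟩ := hcon
      have h3 : ∃ p ∈ L, N < p ∧ p ≤ M₁ ∧ (p : ℤ) ∣ a p 0 ^ m -
          MvPolynomial.eval (fun i => a p i.succ) f := by
        by_contra h
        push Not at h
        exact hc1 ⟨hf, fun p hp h1 h2 => h p hp h1 h2⟩
      have h4 : ∃ (l : Fin k → ℕ) (a : Fin k → Fin (n + 1 + 1) → ℤ),
        Function.Injective l ∧ ∀ i, (l i).Prime ∧ M₁ < l i ∧ l i ≤ M₂ ∧
          Obs (Q i.succ) (l i) (a i) ∧ TestC m f (l i) (a i) := by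
        by_contra h
        exact hc2 ⟨hf, h⟩
      obtain ⟨p, hp, hp1, hp2, hp3⟩ := h3
      obtain ⟨l, b, hl, hb⟩ := h4
      apply hno
      refine ⟨Fin.cons p l, Fin.cons (a p) b, ?_, ?_⟩
      · rw [Fin.cons_injective_iff]
        refine ⟨?_, hl⟩
        rintro ⟨i, hi⟩
        have := (hb i).2.1
        omega
      · intro i
        refine Fin.cases ?_ (fun i => ?_) i
        · simp only [Fin.cons_zero]
          exact ⟨hLP p hp, hp1, hp2.trans hM₂, (ha p hp).2.2, (ha p hp).1, (ha p hp).2.1, hp3⟩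
        · simp only [Fin.cons_succ]
          exact ⟨(hb i).1, lt_of_le_of_lt hM₁ (hb i).2.1, (hb i).2.2.1, (hb i).2.2.2.1,
            (hb i).2.2.2.2⟩
    have h5 := Set.ncard_le_ncard hsub
      (((hfin H).subset (fun f hf => hf.1)).union ((hfin H).subset (fun f hf => hf.1)))
    have h6 := (h5.trans (Set.ncard_union_le _ _))
    have h7 := (Nat.cast_le (α := ℝ)).mpr h6
    rw [Nat.cast_add] at h7
    linarith

theorem tested_all {n d : ℕ} (m : ℕ) (P : (MvPolynomial (Fin (n + 1 + 1)) ℤ)[X])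
    (hP : NoRoot P) (N : ℕ) (ε : ℝ) (hε : 0 < ε) :
    ∃ M H₀ : ℕ, N ≤ M ∧ 2 ≤ M ∧ ∀ H : ℕ, H₀ ≤ H →
      (({f | f ∈ Fm n d H ∧ ¬ TestedC m N M f P} : Set _).ncard : ℝ) ≤
        ε * ((Fm n d H).ncard : ℝ) := by
  obtain ⟨k, Q, c, hprod, hK⟩ := Pool.Agent.Y945.HB.t_FAC (n + 1) P hP
  obtain ⟨M, H₀, hM, hH⟩ := tests_all (n := n) (d := d) m k Q hK N ε hε
  refine ⟨max M 2, H₀, hM.trans (le_max_left _ _), le_max_right _ _, fun H hH0 => ?_⟩
  refine le_trans ?_ (hH H hH0)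
  have hsub : {f | f ∈ Fm n d H ∧ ¬ TestedC m N (max M 2) f P} ⊆
      {f | f ∈ Fm n d H ∧ ¬ ∃ (l : Fin k → ℕ) (a : Fin k → Fin (n + 1 + 1) → ℤ),
        Function.Injective l ∧ ∀ i, (l i).Prime ∧ N < l i ∧ l i ≤ M ∧ Obs (Q i) (l i) (a i) ∧
          TestC m f (l i) (a i)} := by
    rintro f ⟨hf, hno⟩
    refine ⟨hf, ?_⟩
    rintro ⟨l, a, hl, h⟩
    exact hno ⟨k, Q, c, l, a, hprod, hl, fun i => ⟨(h i).1, (h i).2.1,
      (h i).2.2.1.trans (le_max_left _ _), (h i).2.2.2⟩⟩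
  exact_mod_cast Set.ncard_le_ncard hsub ((fm_finite n d H).subset (fun f hf => hf.1))

/-! ## The covers of bounded complexity -/

/-- the polynomials of complexity at most `m` without root -/
def CovT (n m : ℕ) : Set (MvPolynomial (Fin (n + 1)) ℤ)[X] :=
  {P | P.natDegree ≤ m ∧ (∀ j, (P.coeff j).totalDegree ≤ m) ∧
    (∀ j u, |(P.coeff j).coeff u| ≤ (m : ℤ)) ∧ NoRoot P}

theorem covT_finite (n m : ℕ) : (CovT n m).Finite := by
  let I : Type := Fin (m + 1) × (Fin (n + 1) → Fin (m + 1))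
  let ix : (Fin (n + 1) → Fin (m + 1)) → (Fin (n + 1) →₀ ℕ) := fun u =>
    Finsupp.equivFunOnFinite.symm (fun i => (u i : ℕ))
  let f : (MvPolynomial (Fin (n + 1)) ℤ)[X] → (I → ℤ) := fun P i =>
    (P.coeff i.1).coeff (ix i.2)
  have hfin : (Set.pi Set.univ (fun _ : I => Set.Icc (-(m:ℤ)) m)).Finite :=
    Set.Finite.pi fun _ => Set.finite_Icc _ _
  have hz : ∀ G : MvPolynomial (Fin (n + 1)) ℤ, G.totalDegree ≤ m → ∀ (u : Fin (n + 1) →₀ ℕ) (i),
      m < u i → G.coeff u = 0 := by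
    intro G hG u i hi
    by_contra hne
    have h1 := MvPolynomial.le_totalDegree (MvPolynomial.mem_support_iff.2 hne)
    have h2 : m < u.degree := lt_of_lt_of_le hi (Finsupp.le_degree i u)
    have h3 : (u.sum fun _ e => e) = u.degree := by
      rw [Finsupp.degree_eq_sum, Finsupp.sum_fintype _ _ (fun _ => rfl)]
    omega
  refine Set.Finite.of_injOn (f := f) (t := Set.pi Set.univ (fun _ : I => Set.Icc (-(m:ℤ)) m))
    ?_ ?_ hfin
  · rintro P ⟨_, _, hP, _⟩ i _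
    exact abs_le.1 (hP i.1 (ix i.2))
  · rintro P ⟨hPd, hPD, hP, _⟩ Q ⟨hQd, hQE, hQ, _⟩ hPQ
    ext k u
    by_cases hk : k ≤ m
    · by_cases hu : ∀ i, u i ≤ m
      · have h1 := congrFun hPQ (⟨k, by omega⟩, fun i => ⟨u i, by have := hu i; omega⟩)
        have h2 : ix (fun i => ⟨u i, by have := hu i; omega⟩) = u := by
          ext i
          simp [ix]
        simp only [f] at h1
        rw [h2] at h1
        exact h1
      · push Not at hu
        obtain ⟨i, hi⟩ := hu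
        rw [hz _ (hPD k) u i hi, hz _ (hQE k) u i hi]
    · rw [coeff_eq_zero_of_natDegree_lt (by omega), coeff_eq_zero_of_natDegree_lt (by omega)]

/-- the product of all the polynomials of complexity at most `m` without root -/
noncomputable def PT (n m : ℕ) : (MvPolynomial (Fin (n + 1)) ℤ)[X] :=
  ∏ P ∈ (covT_finite n m).toFinset, P

theorem pt_noRoot (n m : ℕ) : NoRoot (PT n m) := by
  unfold PT
  refine Finset.prod_induction _ NoRoot (fun _ _ => noRoot_mul) noRoot_one (fun P hP => ?_)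
  rw [Set.Finite.mem_toFinset] at hP
  exact hP.2.2.2

theorem pt_eval {n m : ℕ} {x : Fin (n + 1) → ℚ} {w : ℚ}
    (h : ((PT n m).map (evQ x)).eval w ≠ 0) {P : (MvPolynomial (Fin (n + 1)) ℤ)[X]}
    (hP : P ∈ CovT n m) : (P.map (evQ x)).eval w ≠ 0 := by
  intro h0
  apply h
  unfold PT
  rw [Polynomial.map_prod, Polynomial.eval_prod]
  exact Finset.prod_eq_zero ((covT_finite n m).mem_toFinset.mpr hP) h0

end Pool.Agent.Run7.h443.HC
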